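import Pool.Agent.MP_43e117_nt.GP.DG

open Finset Filter

namespace Pool.Agent.MP_43e117_nt.GP

theorem few_K {K D : ℕ} (hD : ∀ p : ℕ, p.Prime → p ≤ 2 * K → p ∣ D) (hD0 : 0 < D)
    {P : ℕ → Prop} (hP : Cell2 K P) {F T : Finset ℕ} (hF : F.card = K)
    (hT : ∀ t ∈ T, ∀ s ∈ F, D * s < t ∧ ¬ P (2 * (t - D * s))) : T.card ≤ D * K := by
  by_contra hc
  obtain ⟨y, -, hy⟩ := exists_lt_card_fiber_of_mul_lt_card_of_maps_to (s := T) (t := range D)
    (f := fun t => t % D) (n := K) (fun t _ => mem_range.2 (Nat.mod_lt _ hD0))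
    (by rw [card_range]; omega)
  obtain ⟨T', h1, h2⟩ := exists_subset_card_eq hy.le
  have hf : ∀ i, F.orderEmbOfFin hF i ∈ F := orderEmbOfFin_mem F hF
  have hg : ∀ j, T'.orderEmbOfFin h2 j ∈ T ∧ T'.orderEmbOfFin h2 j % D = y := fun j =>
    mem_filter.1 (h1 (orderEmbOfFin_mem T' h2 j))
  have f1 := (F.orderEmbOfFin hF).injective
  have g1 := (T'.orderEmbOfFin h2).injective
  generalize ⇑(F.orderEmbOfFin hF) = f at hf f1
  generalize ⇑(T'.orderEmbOfFin h2) = g at hg g1
  have hx : ∀ i j, D * f i < g j ∧ ¬ P (2 * (g j - D * f i)) := fun i j => hT _ (hg j).1 _ (hf i)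
  obtain ⟨⟨a, i⟩, ⟨b, j⟩, h3, h4, h5⟩ := hP
    (fun l => if l.1 = 0 then 2 * (D * f l.2) else 2 * g l.2) (by
      rintro ⟨a, i⟩ ⟨b, j⟩ h
      have h3 := (hx i j).1
      have h4 := (hx j i).1
      dsimp only at h
      split_ifs at h with c1 c2 c2
      · rw [c1, c2, f1 (Nat.eq_of_mul_eq_mul_left hD0 (by omega : D * f i = D * f j))]
      · omega
      · omega
      · rw [g1 (by omega : g i = g j), show a = b by omega]) (by
      intro p hp
      have : Fact p.Prime := ⟨hp⟩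
      have key : ∀ S : Finset (ZMod p), S.card < p → ∀ h : Fin 2 × Fin K → ℕ,
          (∀ l, -(h l : ZMod p) ∈ S) → ∃ c : ℕ, ∀ l, ¬ p ∣ c + h l := by
        intro S hS h hh
        obtain ⟨c, -, hc⟩ := exists_mem_notMem_of_card_lt_card (s := S) (t := univ)
          (by rwa [card_univ, ZMod.card])
        refine ⟨c.val, fun l h6 => hc ?_⟩
        rw [← ZMod.natCast_eq_zero_iff, Nat.cast_add, ZMod.natCast_zmod_val] at h6
        rw [eq_neg_of_add_eq_zero_left h6]
        exact hh l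
      by_cases c1 : p ≤ 2 * K
      · by_cases c2 : p = 2
        · subst c2
          refine ⟨1, fun l => ?_⟩
          split_ifs <;> omega
        · have c3 : 2 < p := lt_of_le_of_ne hp.two_le (Ne.symm c2)
          have c4 : (D : ZMod p) = 0 := (ZMod.natCast_eq_zero_iff _ _).2 (hD p hp c1)
          refine key {0, -(2 * (y : ZMod p))} (lt_of_le_of_lt card_le_two c3) _ fun l => ?_
          split_ifs
          · simp [c4]
          · rw [← Nat.mod_add_div (g l.2) D, (hg l.2).2]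
            simp [c4]
      · refine key (univ.image fun l : Fin 2 × Fin K =>
          -(((if l.1 = 0 then 2 * (D * f l.2) else 2 * g l.2 : ℕ) : ZMod p)))
          (lt_of_le_of_lt card_image_le (by simp; omega)) _ fun l => mem_image_of_mem _ (mem_univ l))
  have h6 := (hx j i).1
  dsimp only at h3 h4 h5
  split_ifs at h4 h5 with c1 c2 c2
  · exact h3 (c1.trans c2.symm)
  · exact (hx i j).2 (by rwa [Nat.mul_sub])
  · omega
  · exact h3 (by omega)

theorem s_K : StK := by
  classical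
  intro K
  rcases Nat.eq_zero_or_pos K with rfl | hK
  · refine ⟨0, 0, by norm_num, fun P hP => ?_⟩
    obtain ⟨i, -⟩ := hP (fun _ => 0) (fun a => a.2.elim0) fun _ _ => ⟨0, fun l => l.2.elim0⟩
    exact i.2.elim0
  obtain ⟨D, hD0, hD⟩ : ∃ D : ℕ, 0 < D ∧ ∀ p : ℕ, p.Prime → p ≤ 2 * K → p ∣ D :=
    ⟨(2 * K).factorial, Nat.factorial_pos _, fun p hp h => hp.dvd_factorial.2 h⟩
  have hK1 : (0 : ℝ) < K + 1 := by positivity
  refine ⟨K / (K + 1), (D + 1) * (1 + K) + K.factorial * (D * K),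
    (div_lt_one hK1).2 (by linarith), fun P hP Y L => ?_⟩
  obtain ⟨Q, hQ⟩ : ∃ Q : Finset ℕ, Q = (Ioc Y (Y + L)).filter fun m => ¬ P (2 * m) := ⟨_, rfl⟩
  have e1 : {m ∈ Set.Ioc Y (Y + L) | ¬ P (2 * m)} = (Q : Set ℕ) := by
    ext m
    simp [hQ]
  rw [e1, Set.ncard_coe_finset]
  rcases Nat.eq_zero_or_pos L with rfl | hL
  · rw [hQ]
    simp only [add_zero, Ioc_self, filter_empty, card_empty, Nat.cast_zero]
    positivity
  obtain ⟨Nb, hNb⟩ : ∃ Nb : ℕ → Finset ℕ,
      Nb = fun t => (range L).filter fun s => D * s < t ∧ t - D * s ∈ Q := ⟨_, rfl⟩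
  obtain ⟨T, hT⟩ : ∃ T : Finset ℕ, T = Ioc Y (Y + (D + 1) * L) := ⟨_, rfl⟩
  have h1 : L * Q.card ≤ ∑ t ∈ T, (Nb t).card := by
    simp only [hNb, card_filter]
    rw [sum_comm]
    refine le_trans (by simp) (card_nsmul_le_sum (range L) _ Q.card fun s hs => ?_)
    rw [← card_filter]
    refine card_le_card_of_injOn (fun m => m + D * s) (fun m hm => ?_) fun a _ b _ h => by
      simpa using h
    have h2 := mem_Ioc.1 (mem_filter.1 (hQ ▸ mem_coe.1 hm)).1
    have h3 := Nat.mul_le_mul_left D (mem_range.1 hs).le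
    simp only [hT, coe_filter, mem_Ioc, Set.mem_ofPred_eq, Nat.add_sub_cancel, add_mul, one_mul]
    exact ⟨⟨by omega, by omega⟩, by omega, hm⟩
  have h2 : ∑ t ∈ T, (Nb t).card.choose K ≤ L ^ K * (D * K) := by
    have h3 : ∀ t, (Nb t).card.choose K =
        ((powersetCard K (range L)).filter fun F => F ⊆ Nb t).card := by
      intro t
      rw [← card_powersetCard]
      congr 1
      ext F
      simp only [mem_powersetCard, mem_filter]
      exact ⟨fun h => ⟨⟨h.1.trans (hNb ▸ filter_subset _ _), h.2⟩, h.1⟩, fun h => ⟨h.2, h.1.2⟩⟩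
    simp only [h3, card_filter]
    rw [sum_comm]
    refine (sum_le_card_nsmul _ _ (D * K) fun F hF => ?_).trans ?_
    · rw [← card_filter]
      refine few_K hD hD0 hP (mem_powersetCard.1 hF).2 fun t ht s hs => ?_
      have h4 := (mem_filter.1 ht).2 hs
      simp only [hNb, hQ, mem_filter] at h4
      exact ⟨h4.2.1, h4.2.2.2⟩
    · rw [card_powersetCard, card_range, smul_eq_mul]
      exact Nat.mul_le_mul_right _ (Nat.choose_le_pow _ _)
  have hL1 : (1 : ℝ) ≤ L := by exact_mod_cast hL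
  obtain ⟨M, hM⟩ : ∃ M : ℝ, M = (L : ℝ) ^ ((K : ℝ) / (K + 1)) := ⟨_, rfl⟩
  have hM1 : 1 ≤ M := hM ▸ Real.one_le_rpow hL1 (by positivity)
  have hM2 : M ^ K * M = (L : ℝ) ^ K := by
    rw [← pow_succ, hM, ← Real.rpow_natCast, ← Real.rpow_mul (by positivity), Nat.cast_succ,
      div_mul_cancel₀ _ hK1.ne', Real.rpow_natCast]
  have hM3 : 0 < M ^ K := by positivity
  rw [← hM]
  have h3 : ∀ t ∈ T, ((Nb t).card : ℝ) ≤
      M + K + L * K.factorial / M ^ K * ((Nb t).card.choose K : ℕ) := by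
    intro t _
    have h4 : (Nb t).card ≤ L := by
      rw [hNb]
      exact (card_filter_le _ _).trans (card_range L).le
    generalize (Nb t).card = n at h4
    by_cases c : (n : ℝ) ≤ M + K
    · exact c.trans (le_add_of_nonneg_right (by positivity))
    · have h5 : K ≤ n + 1 := by
        have : (K : ℝ) ≤ n + 1 := by linarith
        exact_mod_cast this
      have h6 : M ^ K ≤ (K.factorial : ℝ) * (n.choose K : ℕ) := by
        have h7 := Nat.pow_sub_le_descFactorial n K
        rw [Nat.descFactorial_eq_factorial_mul_choose] at h7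
        refine le_trans (pow_le_pow_left₀ (b := ((n + 1 - K : ℕ) : ℝ)) (by linarith) ?_ K)
          (by exact_mod_cast h7)
        rw [Nat.cast_sub h5]
        push_cast
        linarith
      have h8 : (L : ℝ) ≤ L * K.factorial / M ^ K * (n.choose K : ℕ) := by
        rw [div_mul_eq_mul_div, le_div_iff₀ hM3, mul_assoc]
        exact mul_le_mul_of_nonneg_left h6 (by positivity)
      have h9 : (n : ℝ) ≤ L := by exact_mod_cast h4
      have : (0 : ℝ) ≤ K := by positivity
      linarith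
  have h4 := sum_le_sum h3
  rw [sum_add_distrib, sum_const, ← mul_sum, ← Nat.cast_sum, ← Nat.cast_sum, hT, Nat.card_Ioc,
    Nat.add_sub_cancel_left, ← hT, nsmul_eq_mul] at h4
  have h5 : (L : ℝ) * Q.card ≤ (∑ t ∈ T, (Nb t).card : ℕ) := by exact_mod_cast h1
  have h6 : ((∑ t ∈ T, (Nb t).card.choose K : ℕ) : ℝ) ≤ (L : ℝ) ^ K * (D * K) := by
    exact_mod_cast h2
  have h7 : (L : ℝ) * K.factorial / M ^ K * ((L : ℝ) ^ K * (D * K)) =
      L * (K.factorial * (D * K) * M) := by
    rw [← hM2]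
    field_simp
  have h8 := mul_le_mul_of_nonneg_left h6 (show (0 : ℝ) ≤ L * K.factorial / M ^ K by positivity)
  refine le_of_mul_le_mul_left ?_ (show (0 : ℝ) < L by positivity)
  have h9 : (K : ℝ) ≤ K * M := le_mul_of_one_le_right (by positivity) hM1
  have h10 : (((D + 1) * L : ℕ) : ℝ) * (M + K) ≤ L * ((D + 1) * (1 + K) * M) := by
    push_cast
    have : (0 : ℝ) ≤ (D + 1) * L := by positivity
    nlinarith
  nlinarith

end Pool.Agent.MP_43e117_nt.GP
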